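import Pool.Agent.Helper54.FP.TDefs

/-!
# TJ-02: invariants of `z ↦ ζ z` are series in `z^m`
-/

set_option autoImplicit false
set_option linter.unusedVariables false
set_option linter.unusedSectionVars false

namespace Pool.Agent.Helper54.FP

open LaurentPolynomial in
theorem tj02_uT_mul {k : Type} [Field k] (c c' : kˣ) (i j : ℤ) :
    uT k c i * uT k c' j = uT k (c * c') (i + j) := by
  apply Units.ext
  show (C (c : k) * T i) * (C (c' : k) * T j) = C ((c * c' : kˣ) : k) * T (i + j)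
  rw [mul_mul_mul_comm, ← map_mul, ← T_add, Units.val_mul]

open LaurentPolynomial in
theorem tj02_uT_one {k : Type} [Field k] : uT k 1 0 = 1 := by
  apply Units.ext
  show C ((1 : kˣ) : k) * T 0 = 1
  rw [Units.val_one, map_one, T_zero, mul_one]

theorem tj02_uT_inv {k : Type} [Field k] (c : kˣ) (i : ℤ) :
    (uT k c i)⁻¹ = uT k c⁻¹ (-i) := by
  rw [inv_eq_iff_mul_eq_one, tj02_uT_mul, mul_inv_cancel, add_neg_cancel, tj02_uT_one]

theorem tj02_uT_zpow {k : Type} [Field k] (c : kˣ) (i n : ℤ) :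
    (uT k c i) ^ n = uT k (c ^ n) (n * i) := by
  induction n using Int.induction_on with
  | zero => rw [zpow_zero, zpow_zero, zero_mul, tj02_uT_one]
  | succ n ih => rw [zpow_add_one, ih, tj02_uT_mul, zpow_add_one, add_mul, one_mul]
  | pred n ih =>
    rw [zpow_sub_one, ih, tj02_uT_inv, tj02_uT_mul, zpow_sub_one, sub_mul, one_mul,
      sub_eq_add_neg (-(n : ℤ) * i)]

open LaurentPolynomial in
theorem tj02_eval_CT {k : Type} [Field k] (c : kˣ) (i : ℤ) (a : k) (n : ℤ) :
    eval₂ (C : k →+* LaurentPolynomial k) (uT k c i) (C a * T n) =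
      C (a * ((c ^ n : kˣ) : k)) * T (n * i) := by
  rw [eval₂_C_mul_T, tj02_uT_zpow]
  show C a * (C ((c ^ n : kˣ) : k) * T (n * i)) = _
  rw [← mul_assoc, ← map_mul]

open LaurentPolynomial in
theorem tj02_coeff_CT {k : Type} [Field k] (a : k) (n j : ℤ) :
    (C a * T n : LaurentPolynomial k).coeff j = if n = j then a else 0 := by
  rw [← single_eq_C_mul_T]
  exact Finsupp.single_apply

open LaurentPolynomial in
theorem tj02_scoeff {k : Type} [Field k] (ζ : kˣ) (q : LaurentPolynomial k) (n : ℤ) :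
    (eval₂ (C : k →+* LaurentPolynomial k) (uT k ζ 1) q).coeff n =
      ((ζ ^ n : kˣ) : k) * q.coeff n := by
  induction q using LaurentPolynomial.induction_on' with
  | add p q hp hq =>
    rw [map_add, AddMonoidAlgebra.coeff_add, AddMonoidAlgebra.coeff_add, Finsupp.add_apply,
      Finsupp.add_apply, hp, hq, mul_add]
  | C_mul_T j a =>
    rw [tj02_eval_CT, tj02_coeff_CT, tj02_coeff_CT, mul_one]
    by_cases h : j = n
    · rw [if_pos h, if_pos h, h, mul_comm]
    · rw [if_neg h, if_neg h, mul_zero]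

open LaurentPolynomial in
theorem tj02_eq_sum {k : Type} [Field k] (q : LaurentPolynomial k) :
    ∑ n ∈ q.coeff.support, (C (q.coeff n) * T n : LaurentPolynomial k) = q := by
  ext j
  rw [AddMonoidAlgebra.coeff_sum, Finset.sum_apply']
  simp_rw [tj02_coeff_CT]
  rw [Finset.sum_ite_eq' q.coeff.support j]
  split_ifs with h
  · rfl
  · exact (Finsupp.notMem_support_iff.mp h).symm

open LaurentPolynomial in
theorem tj02_laurent {k : Type} [Field k] {m : ℕ} (hm : 0 < m) {ζ : kˣ}
    (hζ : IsPrimitiveRoot (ζ : k) m) (q : LaurentPolynomial k)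
    (hq : eval₂ (C : k →+* LaurentPolynomial k) (uT k ζ 1) q = q) :
    ∃ q' : LaurentPolynomial k,
      eval₂ (C : k →+* LaurentPolynomial k) (uT k 1 m) q' = q := by
  have hζ' : IsPrimitiveRoot ζ m := IsPrimitiveRoot.coe_units_iff.mp hζ
  have hdvd : ∀ n ∈ q.coeff.support, (m : ℤ) ∣ n := by
    intro n hn
    have h1 := tj02_scoeff ζ q n
    rw [hq] at h1
    have h2 : q.coeff n ≠ 0 := Finsupp.mem_support_iff.mp hn
    have h3 : ((ζ ^ n : kˣ) : k) = 1 := by
      have h4 : (((ζ ^ n : kˣ) : k) - 1) * q.coeff n = 0 := by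
        rw [sub_mul, one_mul, ← h1, sub_self]
      rcases mul_eq_zero.mp h4 with h5 | h5
      · exact sub_eq_zero.mp h5
      · exact absurd h5 h2
    have h4 : ζ ^ n = 1 := Units.ext h3
    exact (hζ'.zpow_eq_one_iff_dvd n).mp h4
  refine ⟨∑ n ∈ q.coeff.support, C (q.coeff n) * T (n / m), ?_⟩
  rw [map_sum]
  conv_rhs => rw [← tj02_eq_sum q]
  refine Finset.sum_congr rfl fun n hn => ?_
  rw [tj02_eval_CT, one_zpow, Units.val_one, mul_one, Int.ediv_mul_cancel (hdvd n hn)]

theorem inv_A0 {k : Type} [Field k] {m : ℕ} (hm : 0 < m) {ζ : kˣ}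
    (hζ : IsPrimitiveRoot (ζ : k) m) (a : A0 k) (ha : sA k ζ a = a) : ∃ a', pwA k m a' = a := by
  have h : ∀ n : ℕ, ∃ q' : LaurentPolynomial k,
      LaurentPolynomial.eval₂ (LaurentPolynomial.C : k →+* LaurentPolynomial k) (uT k 1 m) q' =
        PowerSeries.coeff n a := by
    intro n
    apply tj02_laurent hm hζ
    have h1 := congrArg (PowerSeries.coeff n) ha
    rwa [sA, PowerSeries.coeff_map] at h1
  choose q' hq' using h
  refine ⟨PowerSeries.mk q', ?_⟩
  ext1 n
  rw [pwA, PowerSeries.coeff_map, PowerSeries.coeff_mk, hq']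

theorem tj02_ex {F : Type} [CommRing F] (m : ℕ) (q : Polynomial F) :
    ex F m q = Polynomial.expand F m q := by
  rw [ex, Polynomial.coe_eval₂RingHom, Polynomial.expand_eq_sum, Polynomial.eval₂_eq_sum]

theorem tj02_sc_coeff {F : Type} [CommRing F] (c : F) (q : Polynomial F) (n : ℕ) :
    (sc c q).coeff n = c ^ n * q.coeff n := by
  induction q using Polynomial.induction_on' with
  | add p q hp hq => rw [map_add, Polynomial.coeff_add, hp, hq, Polynomial.coeff_add, mul_add]
  | monomial j a =>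
    rw [sc, Polynomial.coe_eval₂RingHom, Polynomial.eval₂_monomial, mul_pow, ← map_pow,
      ← mul_assoc, ← map_mul, Polynomial.coeff_C_mul_X_pow, Polynomial.coeff_monomial]
    by_cases h : n = j
    · rw [if_pos h, if_pos h.symm, h, mul_comm]
    · rw [if_neg h, if_neg (fun h' => h h'.symm), mul_zero]

theorem tj02_poly {k : Type} [Field k] {m : ℕ} (hm : 0 < m) {c : k}
    (hc : IsPrimitiveRoot c m) (q : Polynomial k) (hq : sc c q = q) :
    ∃ q' : Polynomial k, ex k m q' = q := by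
  refine ⟨Polynomial.contract m q, ?_⟩
  rw [tj02_ex]
  ext n
  rw [Polynomial.coeff_expand hm, Polynomial.coeff_contract hm.ne']
  split_ifs with h
  · rw [Nat.div_mul_cancel h]
  · by_contra h2
    have h1 := tj02_sc_coeff c q n
    rw [hq] at h1
    have h3 : q.coeff n ≠ 0 := fun h => h2 h.symm
    have h4 : (c ^ n - 1) * q.coeff n = 0 := by
      rw [sub_mul, one_mul, ← h1, sub_self]
    rcases mul_eq_zero.mp h4 with h5 | h5
    · exact h ((hc.pow_eq_one_iff_dvd n).mp (sub_eq_zero.mp h5))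
    · exact h3 h5

theorem tj02_pw2_alg {k : Type} [Field k] (m : ℕ) (b : Pk k) :
    pw2 k m (algebraMap (Pk k) (R2 k) b) = algebraMap (Pk k) (R2 k) (pwP k m b) := by
  rw [pw2, IsLocalization.Away.lift_eq]
  rfl

theorem tj02_s2_alg {k : Type} [Field k] (ζ : kˣ) (b : Pk k) :
    s2 k ζ (algebraMap (Pk k) (R2 k) b) = algebraMap (Pk k) (R2 k) (sP k ζ b) := by
  rw [s2, IsLocalization.Away.lift_eq]
  rfl

theorem s2_pw2 {k : Type} [Field k] {m : ℕ} {ζ : kˣ} (hζ : (ζ : k) ^ m = 1) :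
    (s2 k ζ).comp (pw2 k m) = pw2 k m := by
  apply IsLocalization.ringHom_ext
    (Submonoid.powers (PowerSeries.X * PowerSeries.C Polynomial.X : Pk k))
  apply RingHom.ext
  intro b
  rw [RingHom.comp_apply, RingHom.comp_apply, RingHom.comp_apply, tj02_pw2_alg, tj02_s2_alg]
  congr 1
  ext1 n
  rw [sP, PowerSeries.coeff_map, pwP, PowerSeries.coeff_map, tj02_ex]
  ext j
  rw [tj02_sc_coeff]
  by_cases hm : m = 0
  · subst hm
    rw [Polynomial.expand_zero, Polynomial.coeff_C]
    split_ifs with h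
    · rw [h, pow_zero, one_mul]
    · rw [mul_zero]
  rw [Polynomial.coeff_expand (Nat.pos_of_ne_zero hm)]
  split_ifs with h
  · obtain ⟨i, rfl⟩ := h
    have h1 : (((ζ⁻¹ : kˣ) : k)) ^ m = 1 := by
      rw [← Units.val_pow_eq_pow_val, inv_pow]
      have : ζ ^ m = 1 := Units.ext (by rw [Units.val_pow_eq_pow_val, hζ, Units.val_one])
      rw [this, inv_one, Units.val_one]
    rw [pow_mul, h1, one_pow, one_mul]
  · rw [mul_zero]

theorem inv_R2 {k : Type} [Field k] {m : ℕ} (hm : 0 < m) {ζ : kˣ}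
    (hζ : IsPrimitiveRoot (ζ : k) m) (r : R2 k) (hr : s2 k ζ r = r) : ∃ r', pw2 k m r' = r := by
  have hζ' : IsPrimitiveRoot ζ m := IsPrimitiveRoot.coe_units_iff.mp hζ
  have hζi : IsPrimitiveRoot ((ζ⁻¹ : kˣ) : k) m := IsPrimitiveRoot.coe_units_iff.mpr hζ'.inv
  have hinj : Function.Injective (algebraMap (Pk k) (R2 k)) :=
    IsLocalization.injective (R2 k) (powers_le_nonZeroDivisors_of_noZeroDivisors (XCX_ne_zero k))
  obtain ⟨⟨b, ⟨_, n, rfl⟩⟩, h⟩ := IsLocalization.surj
    (Submonoid.powers (PowerSeries.X * PowerSeries.C Polynomial.X : Pk k)) r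
  dsimp only at h
  set x : Pk k := PowerSeries.X * PowerSeries.C Polynomial.X with hx
  -- the invariant numerator
  set b' : Pk k := b * x ^ (m * n - n) with hb'
  have hmn : n + (m * n - n) = m * n := by
    have : n ≤ m * n := Nat.le_mul_of_pos_left n hm
    omega
  have h1 : r * algebraMap (Pk k) (R2 k) (x ^ (m * n)) = algebraMap (Pk k) (R2 k) b' := by
    rw [hb', map_mul, ← h, mul_assoc, ← map_mul, ← pow_add, hmn]
  have hsx : sP k ζ x = PowerSeries.C (Polynomial.C ((ζ⁻¹ : kˣ) : k)) * x := by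
    rw [hx, sP, map_mul, PowerSeries.map_X, PowerSeries.map_C]
    have : sc ((ζ⁻¹ : kˣ) : k) Polynomial.X = Polynomial.C ((ζ⁻¹ : kˣ) : k) * Polynomial.X := by
      simp [sc]
    rw [this, map_mul]
    ring
  have hsxm : sP k ζ (x ^ (m * n)) = x ^ (m * n) := by
    rw [map_pow, hsx, mul_pow, ← map_pow, ← map_pow, pow_mul ((ζ⁻¹ : kˣ) : k), hζi.pow_eq_one,
      one_pow, map_one, map_one, one_mul]
  have hb'inv : sP k ζ b' = b' := by
    apply hinj
    rw [← tj02_s2_alg, ← h1, map_mul, hr, tj02_s2_alg, hsxm]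
  have h2 : ∀ i : ℕ, ∃ q' : Polynomial k, ex k m q' = PowerSeries.coeff i b' := by
    intro i
    apply tj02_poly hm hζi
    have h3 := congrArg (PowerSeries.coeff i) hb'inv
    rwa [sP, PowerSeries.coeff_map] at h3
  choose q' hq' using h2
  have hb'' : pwP k m (PowerSeries.mk q') = b' := by
    ext1 i
    rw [pwP, PowerSeries.coeff_map, PowerSeries.coeff_mk, hq']
  set e : Pk k := PowerSeries.X ^ (m * n) * PowerSeries.C Polynomial.X ^ n with he
  have hpe : pwP k m e = x ^ (m * n) := by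
    have h3 : ex k m Polynomial.X = Polynomial.X ^ m := by simp [ex]
    rw [he, pwP, map_mul, map_pow, map_pow, PowerSeries.map_X, PowerSeries.map_C, h3, hx, mul_pow,
      map_pow, ← pow_mul]
  have hue : IsUnit (algebraMap (Pk k) (R2 k) e) := by
    rw [he, map_mul, map_pow, map_pow]
    exact ((isUnit_R2 k).1.pow _).mul ((isUnit_R2 k).2.pow _)
  refine ⟨algebraMap (Pk k) (R2 k) (PowerSeries.mk q') * ((hue.unit⁻¹ : (R2 k)ˣ) : R2 k), ?_⟩
  have hue2 : IsUnit (pw2 k m (algebraMap (Pk k) (R2 k) e)) := hue.map _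
  apply hue2.mul_right_cancel
  rw [← map_mul, mul_assoc, IsUnit.val_inv_mul, mul_one, tj02_pw2_alg, hb'', tj02_pw2_alg, hpe,
    h1]

end Pool.Agent.Helper54.FP
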